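import Pool.Agent.H98.Cubic.Targets
import Pool.Agent.H98.Cubic.Basic

/-!
Cubic moment of Hardy's function (`MP_56c76e_nt`): module [Red], the reduction to the
exponential sum `W(N)`.
-/

set_option autoImplicit false

open Finset MeasureTheory
open Pool.Agent.H98.Cubic

namespace Pool.Agent.H12.Cubic

theorem cube_identity (z : ℂ) :
    (2 * z.re) ^ 3 = 2 * (z ^ 3).re + 6 * (z ^ 2 * (starRingEnd ℂ) z).re := by
  simp only [pow_succ, pow_zero, one_mul, Complex.mul_re, Complex.mul_im, Complex.conj_re,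
    Complex.conj_im]
  ring

theorem cube_diff (Z M δ : ℝ) (h : |Z - M| ≤ δ) :
    |Z ^ 3 - M ^ 3| ≤ δ * (6 * M ^ 2 + 6 * δ ^ 2) := by
  have hδ : 0 ≤ δ := (abs_nonneg _).trans h
  have e : Z ^ 3 - M ^ 3 = (Z - M) * (Z ^ 2 + Z * M + M ^ 2) := by ring
  rw [e, abs_mul]
  have h3 : (Z - M) ^ 2 ≤ δ ^ 2 := by
    rw [← sq_abs (Z - M)]
    exact pow_le_pow_left₀ (abs_nonneg _) h 2
  have h4 : 0 ≤ Z ^ 2 + Z * M + M ^ 2 := by
    have e1 : Z ^ 2 + Z * M + M ^ 2 = (Z + M / 2) ^ 2 + 3 / 4 * M ^ 2 := by ring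
    rw [e1]; positivity
  have h1 : |Z ^ 2 + Z * M + M ^ 2| ≤ 6 * M ^ 2 + 6 * δ ^ 2 := by
    rw [abs_of_nonneg h4]
    have e2 : 6 * M ^ 2 + 6 * δ ^ 2 - (Z ^ 2 + Z * M + M ^ 2) =
        3 * (M - (Z - M) / 2) ^ 2 + 6 * (δ ^ 2 - (Z - M) ^ 2) + 17 / 4 * (Z - M) ^ 2 := by ring
    have e3 : 0 ≤ 3 * (M - (Z - M) / 2) ^ 2 + 6 * (δ ^ 2 - (Z - M) ^ 2) +
        17 / 4 * (Z - M) ^ 2 := by
      have := sub_nonneg.mpr h3
      positivity
    linarith
  exact mul_le_mul h h1 (abs_nonneg _) hδ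

theorem measurable_th0 : Measurable th0 := by
  unfold th0
  fun_prop

theorem measurable_zt (n : ℕ) : Measurable (zt n) := by
  unfold zt
  refine measurable_const.mul ?_
  exact continuous_ei.measurable.comp (by fun_prop)

theorem measurable_A : Measurable A := by
  have hm : Measurable (fun q : ℕ × ℝ => ∑ n ∈ Icc 1 q.1, zt n q.2) := by
    refine measurable_from_prod_countable_right ?_
    intro n
    exact Finset.measurable_fun_sum (Icc 1 n) fun i _ => measurable_zt i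
  have h2 : Measurable (fun t : ℝ => (⌊Real.sqrt (t / (2 * Real.pi))⌋₊, t)) := by
    refine Measurable.prodMk ?_ measurable_id
    exact Nat.measurable_floor.comp (by fun_prop)
  have e : A = (fun q : ℕ × ℝ => ∑ n ∈ Icc 1 q.1, zt n q.2) ∘
      (fun t : ℝ => (⌊Real.sqrt (t / (2 * Real.pi))⌋₊, t)) := by
    funext t
    simp only [A, Function.comp]
  rw [e]
  exact Measurable.comp hm h2

theorem measurable_P : Measurable P := by
  unfold P
  exact (continuous_ei.measurable.comp measurable_th0).mul measurable_A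

theorem norm_P_le (t : ℝ) : ‖P t‖ ≤ Real.sqrt (t / (2 * Real.pi)) := by
  unfold P A
  rw [norm_mul, norm_ei, one_mul]
  refine (norm_sum_le _ _).trans ?_
  have h1 : ∀ n ∈ Icc 1 ⌊Real.sqrt (t / (2 * Real.pi))⌋₊, ‖zt n t‖ ≤ 1 := by
    intro n hn
    have hn1 : 1 ≤ n := (Finset.mem_Icc.mp hn).1
    unfold zt
    rw [norm_mul, norm_ei, mul_one, Complex.norm_real, Real.norm_eq_abs, abs_of_nonneg (by positivity)]
    rw [div_le_one (Real.sqrt_pos.mpr (by exact_mod_cast hn1))]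
    rw [Real.one_le_sqrt]
    exact_mod_cast hn1
  refine (Finset.sum_le_sum h1).trans ?_
  simp only [sum_const, Nat.card_Icc, add_tsub_cancel_right, nsmul_eq_mul, mul_one]
  exact Nat.floor_le (Real.sqrt_nonneg _)

theorem intervalIntegrable_of_bdd {E : Type*} [NormedAddCommGroup E] {f : ℝ → E} {a b B : ℝ}
    (hab : a ≤ b) (hm : AEStronglyMeasurable f volume) (hB : ∀ x ∈ Set.Icc a b, ‖f x‖ ≤ B) :
    IntervalIntegrable f volume a b := by
  rw [intervalIntegrable_iff_integrableOn_Ioc_of_le hab]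
  refine Measure.integrableOn_of_bounded (M := B) (by simp) hm ?_
  refine (ae_restrict_iff' measurableSet_Ioc).mpr (Filter.Eventually.of_forall ?_)
  intro x hx
  exact hB x ⟨hx.1.le, hx.2⟩

theorem norm_P_le_of_le {T t : ℝ} (h : t ≤ 2 * T) : ‖P t‖ ≤ Real.sqrt (T / Real.pi) := by
  refine (norm_P_le t).trans (Real.sqrt_le_sqrt ?_)
  rw [div_le_div_iff₀ Real.two_pi_pos Real.pi_pos]
  nlinarith [Real.pi_pos]

theorem part_one (hAFE : TAFE) (hSec : TSecond) (hZ : TZreal) :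
    ∃ C : ℝ, 0 < C ∧ ∀ N : ℝ, 10 ≤ N →
      |(∫ t in (2 * Real.pi * N ^ 2)..(2 * (2 * Real.pi * N ^ 2)), Z t ^ 3) -
        (∫ t in (2 * Real.pi * N ^ 2)..(2 * (2 * Real.pi * N ^ 2)), (2 * (P t).re) ^ 3)| ≤
      C * N ^ (19 / 10 : ℝ) := by
  obtain ⟨C1, hC1, h1⟩ := hAFE
  obtain ⟨C2, hC2, h2⟩ := hSec
  refine ⟨(264 * C1 * C2 + 6 * C1 ^ 3) * 7, by positivity, ?_⟩
  intro N hN
  set T : ℝ := 2 * Real.pi * N ^ 2 with hT
  have hpi : 3 < Real.pi := Real.pi_gt_three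
  have hpi4 : Real.pi ≤ 3.5 := by linarith [Real.pi_lt_d2]
  have hN2 : 100 ≤ N ^ 2 := by nlinarith
  have hT100 : 100 ≤ T := by rw [hT]; nlinarith
  have hT0 : 0 < T := by linarith
  have hab : T ≤ 2 * T := by linarith
  set δ : ℝ := C1 * T ^ (-(1 / 5) : ℝ) with hδ
  have hδ0 : 0 ≤ δ := by positivity
  have hbd : ∀ t ∈ Set.Icc T (2 * T), ‖P t‖ ≤ Real.sqrt (T / Real.pi) :=
    fun t ht => norm_P_le_of_le ht.2
  have hiP2 : IntervalIntegrable (fun t => ‖P t‖ ^ 2) volume T (2 * T) := by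
    refine intervalIntegrable_of_bdd (B := Real.sqrt (T / Real.pi) ^ 2) hab
      (measurable_P.norm.pow_const 2).aestronglyMeasurable ?_
    intro t ht
    rw [Real.norm_eq_abs, abs_of_nonneg (by positivity)]
    exact pow_le_pow_left₀ (norm_nonneg _) (hbd t ht) 2
  have hiM : IntervalIntegrable (fun t => (2 * (P t).re) ^ 3) volume T (2 * T) := by
    refine intervalIntegrable_of_bdd (B := (2 * Real.sqrt (T / Real.pi)) ^ 3) hab
      (((Complex.measurable_re.comp measurable_P).const_mul 2).pow_const 3).aestronglyMeasurable ?_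
    intro t ht
    rw [norm_pow, norm_mul, Real.norm_eq_abs, Real.norm_eq_abs, abs_of_pos (by norm_num : (0 : ℝ) < 2)]
    refine pow_le_pow_left₀ (by positivity) ?_ 3
    have := (Complex.abs_re_le_norm (P t)).trans (hbd t ht)
    linarith
  have hiZ : IntervalIntegrable (fun t => Z t ^ 3) volume T (2 * T) :=
    (hZ.2.2.pow 3).intervalIntegrable _ _
  rw [← intervalIntegral.integral_sub hiZ hiM]
  have hpt : ∀ t ∈ Set.Ioc T (2 * T), ‖Z t ^ 3 - (2 * (P t).re) ^ 3‖ ≤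
      δ * (24 * ‖P t‖ ^ 2 + 6 * δ ^ 2) := by
    intro t ht
    have htT : T < t := ht.1
    have ha : |Z t - 2 * (P t).re| ≤ δ := by
      refine (h1 t (by linarith)).trans ?_
      rw [hδ]
      refine mul_le_mul_of_nonneg_left ?_ hC1.le
      exact Real.rpow_le_rpow_of_nonpos hT0 htT.le (by norm_num)
    have hb := cube_diff _ _ _ ha
    rw [Real.norm_eq_abs]
    refine hb.trans (mul_le_mul_of_nonneg_left ?_ hδ0)
    have hc : (P t).re ^ 2 ≤ ‖P t‖ ^ 2 := by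
      rw [← sq_abs (P t).re]
      exact pow_le_pow_left₀ (abs_nonneg _) (Complex.abs_re_le_norm _) 2
    nlinarith
  have hint : IntervalIntegrable (fun t => δ * (24 * ‖P t‖ ^ 2 + 6 * δ ^ 2)) volume T (2 * T) :=
    ((hiP2.const_mul 24).add intervalIntegrable_const).const_mul δ
  have hle := intervalIntegral.norm_integral_le_of_norm_le hab
    (Filter.Eventually.of_forall hpt) hint
  rw [Real.norm_eq_abs] at hle
  refine hle.trans ?_
  have hev : ∫ t in T..(2 * T), δ * (24 * ‖P t‖ ^ 2 + 6 * δ ^ 2) =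
      δ * (24 * (∫ t in T..(2 * T), ‖P t‖ ^ 2) + 6 * δ ^ 2 * T) := by
    rw [intervalIntegral.integral_const_mul, intervalIntegral.integral_add (hiP2.const_mul 24)
      intervalIntegrable_const, intervalIntegral.integral_const_mul,
      intervalIntegral.integral_const, smul_eq_mul]
    ring
  rw [hev]
  have hI := h2 T (by linarith)
  -- powers
  have hlog : Real.log T ≤ 10 * T ^ (1 / 10 : ℝ) := by
    have := Real.log_le_rpow_div hT0.le (by norm_num : (0 : ℝ) < 1 / 10)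
    linarith
  have hone : (1 : ℝ) ≤ T ^ (1 / 10 : ℝ) := Real.one_le_rpow (by linarith) (by norm_num)
  have hI2 : ∫ t in T..(2 * T), ‖P t‖ ^ 2 ≤ 11 * C2 * (T * T ^ (1 / 10 : ℝ)) := by
    refine hI.trans ?_
    have : C2 * T * (1 + Real.log T) ≤ C2 * T * (11 * T ^ (1 / 10 : ℝ)) :=
      mul_le_mul_of_nonneg_left (by linarith) (by positivity)
    linarith
  have e1 : T ^ (-(1 / 5) : ℝ) * (T * T ^ (1 / 10 : ℝ)) = T ^ (9 / 10 : ℝ) := by
    nth_rewrite 2 [← Real.rpow_one T]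
    rw [← Real.rpow_add hT0, ← Real.rpow_add hT0]
    norm_num
  have e2 : (T ^ (-(1 / 5) : ℝ)) ^ 3 * T ≤ T ^ (9 / 10 : ℝ) := by
    have e3 : (T ^ (-(1 / 5) : ℝ)) ^ 3 * T = T ^ (2 / 5 : ℝ) := by
      rw [← Real.rpow_natCast, ← Real.rpow_mul hT0.le]
      nth_rewrite 2 [← Real.rpow_one T]
      rw [← Real.rpow_add hT0]
      norm_num
    rw [e3]
    exact Real.rpow_le_rpow_of_exponent_le (by linarith) (by norm_num)
  have e4 : T ^ (9 / 10 : ℝ) ≤ 7 * N ^ (19 / 10 : ℝ) := by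
    rw [hT, Real.mul_rpow (by positivity) (by positivity)]
    have e5 : (2 * Real.pi) ^ (9 / 10 : ℝ) ≤ 7 := by
      have : (2 * Real.pi) ^ (9 / 10 : ℝ) ≤ (2 * Real.pi) ^ (1 : ℝ) :=
        Real.rpow_le_rpow_of_exponent_le (by linarith) (by norm_num)
      rw [Real.rpow_one] at this
      linarith
    have e6 : (N ^ 2) ^ (9 / 10 : ℝ) ≤ N ^ (19 / 10 : ℝ) := by
      rw [← Real.rpow_natCast N 2, ← Real.rpow_mul (by linarith)]
      exact Real.rpow_le_rpow_of_exponent_le (by linarith) (by norm_num)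
    exact mul_le_mul e5 e6 (by positivity) (by norm_num)
  have f1 : δ * (24 * (∫ t in T..(2 * T), ‖P t‖ ^ 2)) ≤ 264 * C1 * C2 * T ^ (9 / 10 : ℝ) := by
    calc δ * (24 * (∫ t in T..(2 * T), ‖P t‖ ^ 2))
        ≤ δ * (24 * (11 * C2 * (T * T ^ (1 / 10 : ℝ)))) := by gcongr
      _ = 264 * C1 * C2 * (T ^ (-(1 / 5) : ℝ) * (T * T ^ (1 / 10 : ℝ))) := by rw [hδ]; ring
      _ = _ := by rw [e1]
  have f2 : δ * (6 * δ ^ 2 * T) ≤ 6 * C1 ^ 3 * T ^ (9 / 10 : ℝ) := by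
    calc δ * (6 * δ ^ 2 * T) = 6 * C1 ^ 3 * ((T ^ (-(1 / 5) : ℝ)) ^ 3 * T) := by rw [hδ]; ring
      _ ≤ _ := by gcongr
  calc δ * (24 * (∫ t in T..(2 * T), ‖P t‖ ^ 2) + 6 * δ ^ 2 * T)
      = δ * (24 * (∫ t in T..(2 * T), ‖P t‖ ^ 2)) + δ * (6 * δ ^ 2 * T) := by ring
    _ ≤ 264 * C1 * C2 * T ^ (9 / 10 : ℝ) + 6 * C1 ^ 3 * T ^ (9 / 10 : ℝ) := add_le_add f1 f2
    _ = (264 * C1 * C2 + 6 * C1 ^ 3) * T ^ (9 / 10 : ℝ) := by ring
    _ ≤ (264 * C1 * C2 + 6 * C1 ^ 3) * (7 * N ^ (19 / 10 : ℝ)) := by gcongr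
    _ = _ := by ring

/-- the integral of the cube of the main term. -/
theorem integral_cube (N : ℝ) (hN : 1 ≤ N) :
    (∫ t in (2 * Real.pi * N ^ 2)..(2 * (2 * Real.pi * N ^ 2)), (2 * (P t).re) ^ 3) =
      2 * (∫ t in (2 * Real.pi * N ^ 2)..(2 * (2 * Real.pi * N ^ 2)), P t ^ 3).re +
      6 * (∫ t in (2 * Real.pi * N ^ 2)..(2 * (2 * Real.pi * N ^ 2)),
        P t ^ 2 * (starRingEnd ℂ) (P t)).re := by
  set T : ℝ := 2 * Real.pi * N ^ 2 with hT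
  have hT0 : 0 ≤ T := by positivity
  have hab : T ≤ 2 * T := by linarith
  have hbd : ∀ t ∈ Set.Icc T (2 * T), ‖P t‖ ≤ Real.sqrt (T / Real.pi) :=
    fun t ht => norm_P_le_of_le ht.2
  have hi1 : IntervalIntegrable (fun t => P t ^ 3) volume T (2 * T) := by
    refine intervalIntegrable_of_bdd (B := Real.sqrt (T / Real.pi) ^ 3) hab
      (measurable_P.pow_const 3).aestronglyMeasurable ?_
    intro t ht
    rw [norm_pow]
    exact pow_le_pow_left₀ (norm_nonneg _) (hbd t ht) 3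
  have hi2 : IntervalIntegrable (fun t => P t ^ 2 * (starRingEnd ℂ) (P t)) volume T (2 * T) := by
    refine intervalIntegrable_of_bdd (B := Real.sqrt (T / Real.pi) ^ 3) hab
      ((measurable_P.pow_const 2).mul
        (Complex.continuous_conj.measurable.comp measurable_P)).aestronglyMeasurable ?_
    intro t ht
    rw [norm_mul, norm_pow, RCLike.norm_conj, ← pow_succ]
    exact pow_le_pow_left₀ (norm_nonneg _) (hbd t ht) 3
  have e1 : (∫ t in T..(2 * T), P t ^ 3).re = ∫ t in T..(2 * T), (P t ^ 3).re := by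
    have := ContinuousLinearMap.intervalIntegral_comp_comm Complex.reCLM hi1
    simpa using this.symm
  have e2 : (∫ t in T..(2 * T), P t ^ 2 * (starRingEnd ℂ) (P t)).re =
      ∫ t in T..(2 * T), (P t ^ 2 * (starRingEnd ℂ) (P t)).re := by
    have := ContinuousLinearMap.intervalIntegral_comp_comm Complex.reCLM hi2
    simpa using this.symm
  have hr1 : IntervalIntegrable (fun t => (P t ^ 3).re) volume T (2 * T) :=
    ⟨Integrable.re hi1.1, Integrable.re hi1.2⟩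
  have hr2 : IntervalIntegrable (fun t => (P t ^ 2 * (starRingEnd ℂ) (P t)).re) volume T (2 * T) :=
    ⟨Integrable.re hi2.1, Integrable.re hi2.2⟩
  rw [e1, e2, ← intervalIntegral.integral_const_mul, ← intervalIntegral.integral_const_mul,
    ← intervalIntegral.integral_add (hr1.const_mul 2) (hr2.const_mul 6)]
  exact intervalIntegral.integral_congr fun t _ => cube_identity (P t)

/-- the main term of [SP] for the triple `a, b, c`. -/
noncomputable def mt (N : ℝ) (a b c : ℕ) : ℂ :=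
  if 2 * Real.pi * (max N (max (a : ℝ) (max (b : ℝ) c))) ^ 2 ≤
      2 * Real.pi * ((a : ℝ) * b / c) ^ 2 ∧
      2 * Real.pi * ((a : ℝ) * b / c) ^ 2 ≤ 2 * (2 * Real.pi * N ^ 2) then
    ((2 * Real.sqrt 2 * Real.pi * ((a : ℝ) * b / c) : ℝ) : ℂ) *
      ee (1 / 16 - ((a : ℝ) * b / c) ^ 2 / 2) else 0

theorem cond_iff (N : ℝ) (hN : 1 ≤ N) (a b c : ℕ) (ha : 1 ≤ a) (hb : 1 ≤ b) (hc : 1 ≤ c) :
    (2 * Real.pi * (max N (max (a : ℝ) (max (b : ℝ) c))) ^ 2 ≤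
      2 * Real.pi * ((a : ℝ) * b / c) ^ 2 ∧
      2 * Real.pi * ((a : ℝ) * b / c) ^ 2 ≤ 2 * (2 * Real.pi * N ^ 2)) ↔
    (c ≤ a ∧ c ≤ b ∧ N * c ≤ (a : ℝ) * b ∧ (a : ℝ) * b ≤ Real.sqrt 2 * N * c) := by
  have ha' : (0 : ℝ) < a := by exact_mod_cast ha
  have hb' : (0 : ℝ) < b := by exact_mod_cast hb
  have hc' : (0 : ℝ) < c := by exact_mod_cast hc
  have hξ : 0 < (a : ℝ) * b / c := by positivity
  have hm : 0 < max N (max (a : ℝ) (max (b : ℝ) c)) := lt_max_of_lt_left (by linarith)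
  have h1 : 2 * Real.pi * (max N (max (a : ℝ) (max (b : ℝ) c))) ^ 2 ≤
      2 * Real.pi * ((a : ℝ) * b / c) ^ 2 ↔
      max N (max (a : ℝ) (max (b : ℝ) c)) ≤ (a : ℝ) * b / c := by
    rw [mul_le_mul_iff_right₀ Real.two_pi_pos, pow_le_pow_iff_left₀ hm.le hξ.le two_ne_zero]
  have h2 : 2 * Real.pi * ((a : ℝ) * b / c) ^ 2 ≤ 2 * (2 * Real.pi * N ^ 2) ↔
      (a : ℝ) * b / c ≤ Real.sqrt 2 * N := by
    have e : 2 * (2 * Real.pi * N ^ 2) = 2 * Real.pi * (Real.sqrt 2 * N) ^ 2 := by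
      rw [mul_pow, Real.sq_sqrt (by norm_num)]; ring
    rw [e, mul_le_mul_iff_right₀ Real.two_pi_pos,
      pow_le_pow_iff_left₀ hξ.le (by positivity) two_ne_zero]
  rw [h1, h2, max_le_iff, max_le_iff, max_le_iff, le_div_iff₀ hc', le_div_iff₀ hc',
    le_div_iff₀ hc', le_div_iff₀ hc', div_le_iff₀ hc']
  constructor
  · rintro ⟨⟨h3, h4, h5, h6⟩, h7⟩
    refine ⟨?_, ?_, h3, h7⟩
    · have : (c : ℝ) ≤ a := by
        rw [mul_comm (b : ℝ) (c : ℝ)] at h5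
        exact le_of_mul_le_mul_right h5 hb'
      exact_mod_cast this
    · have : (c : ℝ) ≤ b := le_of_mul_le_mul_left h4 ha'
      exact_mod_cast this
  · rintro ⟨h3, h4, h5, h6⟩
    have h3' : (c : ℝ) ≤ a := by exact_mod_cast h3
    have h4' : (c : ℝ) ≤ b := by exact_mod_cast h4
    refine ⟨⟨h5, ?_, ?_, ?_⟩, h6⟩
    · exact mul_le_mul_of_nonneg_left h4' ha'.le
    · rw [mul_comm (b : ℝ) (c : ℝ)]
      exact mul_le_mul_of_nonneg_right h3' hb'.le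
    · exact mul_le_mul h3' h4' hc'.le ha'.le

theorem sum_mt (N : ℝ) (hN : 1 ≤ N) :
    ∑ a ∈ Icc 1 ⌊Real.sqrt 2 * N⌋₊, ∑ b ∈ Icc 1 ⌊Real.sqrt 2 * N⌋₊,
        ∑ c ∈ Icc 1 ⌊Real.sqrt 2 * N⌋₊, ((1 / Real.sqrt ((a : ℝ) * b * c) : ℝ) : ℂ) *
          mt N a b c =
      ((2 * Real.sqrt 2 * Real.pi : ℝ) : ℂ) * (ee (1 / 16) * (starRingEnd ℂ) (W N)) := by
  have hW : W N = ∑ c ∈ Icc 1 ⌊Real.sqrt 2 * N⌋₊, ∑ a ∈ Icc 1 ⌊Real.sqrt 2 * N⌋₊,
      ∑ b ∈ Icc 1 ⌊Real.sqrt 2 * N⌋₊,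
        if (c ≤ a ∧ c ≤ b ∧ N * c ≤ (a : ℝ) * b ∧ (a : ℝ) * b ≤ Real.sqrt 2 * N * c) then
          ((Real.sqrt a * Real.sqrt b / (c * Real.sqrt c) : ℝ) : ℂ) *
            ee ((a : ℝ) ^ 2 * (b : ℝ) ^ 2 / (2 * (c : ℝ) ^ 2)) else 0 := by
    unfold W
    rw [Finset.sum_filter, Finset.sum_product]
    refine Finset.sum_congr rfl fun c _ => ?_
    rw [Finset.sum_product]
  have hL : ∑ a ∈ Icc 1 ⌊Real.sqrt 2 * N⌋₊, ∑ b ∈ Icc 1 ⌊Real.sqrt 2 * N⌋₊,
        ∑ c ∈ Icc 1 ⌊Real.sqrt 2 * N⌋₊, ((1 / Real.sqrt ((a : ℝ) * b * c) : ℝ) : ℂ) *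
          mt N a b c =
      ∑ c ∈ Icc 1 ⌊Real.sqrt 2 * N⌋₊, ∑ a ∈ Icc 1 ⌊Real.sqrt 2 * N⌋₊,
        ∑ b ∈ Icc 1 ⌊Real.sqrt 2 * N⌋₊, ((1 / Real.sqrt ((a : ℝ) * b * c) : ℝ) : ℂ) *
          mt N a b c := by
    rw [Finset.sum_comm]
    rw [← Finset.sum_comm (s := Icc 1 ⌊Real.sqrt 2 * N⌋₊) (t := Icc 1 ⌊Real.sqrt 2 * N⌋₊)]
    have : ∀ a ∈ Icc 1 ⌊Real.sqrt 2 * N⌋₊, ∑ b ∈ Icc 1 ⌊Real.sqrt 2 * N⌋₊,
        ∑ c ∈ Icc 1 ⌊Real.sqrt 2 * N⌋₊, ((1 / Real.sqrt ((a : ℝ) * b * c) : ℝ) : ℂ) *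
          mt N a b c = ∑ c ∈ Icc 1 ⌊Real.sqrt 2 * N⌋₊,
        ∑ b ∈ Icc 1 ⌊Real.sqrt 2 * N⌋₊, ((1 / Real.sqrt ((a : ℝ) * b * c) : ℝ) : ℂ) *
          mt N a b c := fun a _ => Finset.sum_comm
    rw [Finset.sum_congr rfl this, Finset.sum_comm]
  rw [hL, hW, map_sum, Finset.mul_sum, Finset.mul_sum]
  refine Finset.sum_congr rfl fun c hc => ?_
  rw [map_sum, Finset.mul_sum, Finset.mul_sum]
  refine Finset.sum_congr rfl fun a ha => ?_
  rw [map_sum, Finset.mul_sum, Finset.mul_sum]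
  refine Finset.sum_congr rfl fun b hb => ?_
  have ha1 := (Finset.mem_Icc.mp ha).1
  have hb1 := (Finset.mem_Icc.mp hb).1
  have hc1 := (Finset.mem_Icc.mp hc).1
  have ha' : (0 : ℝ) < a := by exact_mod_cast ha1
  have hb' : (0 : ℝ) < b := by exact_mod_cast hb1
  have hc' : (0 : ℝ) < c := by exact_mod_cast hc1
  unfold mt
  by_cases h : (c ≤ a ∧ c ≤ b ∧ N * c ≤ (a : ℝ) * b ∧ (a : ℝ) * b ≤ Real.sqrt 2 * N * c)
  · rw [if_pos h, if_pos ((cond_iff N hN a b c ha1 hb1 hc1).mpr h), map_mul, conj_ee,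
      Complex.conj_ofReal]
    have e1 : ee (1 / 16 - ((a : ℝ) * b / c) ^ 2 / 2) =
        ee (1 / 16) * ee (-((a : ℝ) ^ 2 * (b : ℝ) ^ 2 / (2 * (c : ℝ) ^ 2))) := by
      rw [← ee_add]
      congr 1
      field_simp
      ring
    have e2 : (1 / Real.sqrt ((a : ℝ) * b * c)) *
        (2 * Real.sqrt 2 * Real.pi * ((a : ℝ) * b / c)) =
        2 * Real.sqrt 2 * Real.pi * (Real.sqrt a * Real.sqrt b / (c * Real.sqrt c)) := by
      rw [Real.sqrt_mul (by positivity), Real.sqrt_mul (by positivity)]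
      have h3 : Real.sqrt a ≠ 0 := (Real.sqrt_pos.mpr ha').ne'
      have h4 : Real.sqrt b ≠ 0 := (Real.sqrt_pos.mpr hb').ne'
      have h5 : Real.sqrt c ≠ 0 := (Real.sqrt_pos.mpr hc').ne'
      field_simp
      rw [Real.sq_sqrt ha'.le, Real.sq_sqrt hb'.le]
    rw [e1]
    calc ((1 / Real.sqrt ((a : ℝ) * b * c) : ℝ) : ℂ) *
          (((2 * Real.sqrt 2 * Real.pi * ((a : ℝ) * b / c) : ℝ) : ℂ) *
            (ee (1 / 16) * ee (-((a : ℝ) ^ 2 * (b : ℝ) ^ 2 / (2 * (c : ℝ) ^ 2)))))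
        = (((1 / Real.sqrt ((a : ℝ) * b * c)) *
            (2 * Real.sqrt 2 * Real.pi * ((a : ℝ) * b / c)) : ℝ) : ℂ) *
            (ee (1 / 16) * ee (-((a : ℝ) ^ 2 * (b : ℝ) ^ 2 / (2 * (c : ℝ) ^ 2)))) := by
          push_cast; ring
      _ = _ := by rw [e2]; push_cast; ring
  · rw [if_neg h, if_neg (fun h' => h ((cond_iff N hN a b c ha1 hb1 hc1).mp h'))]
    simp

theorem red (hAFE : TAFE) (hSec : TSecond) (hSP : TSP) (hErr : TErr) (hP3 : TP3) (hExp : TExp)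
    (hZ : TZreal) : TRed := by
  obtain ⟨C1, hC1, h1⟩ := part_one hAFE hSec hZ
  obtain ⟨C2, hC2, h2⟩ := hSP
  obtain ⟨C3, hC3, h3⟩ := hErr
  obtain ⟨C4, hC4, h4⟩ := hP3
  refine ⟨C1 + 6 * (C2 * C3) + 2 * C4, by positivity, ?_⟩
  intro N hN
  have hN1 : 1 ≤ N := by linarith
  have hN0 : 0 < N := by linarith
  obtain ⟨hx1, hx2⟩ := hExp N hN1
  have hcube := integral_cube N hN1
  have hp3 := h4 N hN1
  rw [← hx1] at hp3
  have hp1 := h1 N hN
  rw [hcube] at hp1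
  -- the second integral
  have hdiff : ‖(∫ t in (2 * Real.pi * N ^ 2)..(2 * (2 * Real.pi * N ^ 2)),
      P t ^ 2 * (starRingEnd ℂ) (P t)) -
      ((2 * Real.sqrt 2 * Real.pi : ℝ) : ℂ) * (ee (1 / 16) * (starRingEnd ℂ) (W N))‖ ≤
      C2 * C3 * N ^ (7 / 4 : ℝ) := by
    rw [hx2, ← sum_mt N hN1, ← Finset.sum_sub_distrib]
    refine (norm_sum_le _ _).trans ?_
    have hterm : ∀ a ∈ Icc 1 ⌊Real.sqrt 2 * N⌋₊, ‖(∑ b ∈ Icc 1 ⌊Real.sqrt 2 * N⌋₊,
        ∑ c ∈ Icc 1 ⌊Real.sqrt 2 * N⌋₊, ((1 / Real.sqrt ((a : ℝ) * b * c) : ℝ) : ℂ) *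
          ∫ t in (2 * Real.pi * (max N (max (a : ℝ) (max (b : ℝ) c))) ^ 2)..(2 * (2 * Real.pi * N ^ 2)),
            ei (th0 t - t * Real.log ((a : ℝ) * b / c))) -
        ∑ b ∈ Icc 1 ⌊Real.sqrt 2 * N⌋₊, ∑ c ∈ Icc 1 ⌊Real.sqrt 2 * N⌋₊,
          ((1 / Real.sqrt ((a : ℝ) * b * c) : ℝ) : ℂ) * mt N a b c‖ ≤
        ∑ b ∈ Icc 1 ⌊Real.sqrt 2 * N⌋₊,
      ∑ c ∈ Icc 1 ⌊Real.sqrt 2 * N⌋₊, C2 * (1 / Real.sqrt ((a : ℝ) * b * c) *
        (1 + mn ((a : ℝ) * b / c)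
              (Real.log (max N (max (a : ℝ) (max (b : ℝ) c)) / ((a : ℝ) * b / c))) +
          mn ((a : ℝ) * b / c) (Real.log (Real.sqrt 2 * N / ((a : ℝ) * b / c))))) := by
      intro a ha
      rw [← Finset.sum_sub_distrib]
      refine (norm_sum_le _ _).trans (Finset.sum_le_sum fun b hb => ?_)
      rw [← Finset.sum_sub_distrib]
      refine (norm_sum_le _ _).trans (Finset.sum_le_sum fun c hc => ?_)
      rw [← mul_sub, norm_mul]
      have ha1 := Finset.mem_Icc.mp ha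
      have hb1 := Finset.mem_Icc.mp hb
      have hc1 := Finset.mem_Icc.mp hc
      have ha' : (0 : ℝ) < a := by exact_mod_cast ha1.1
      have hb' : (0 : ℝ) < b := by exact_mod_cast hb1.1
      have hc' : (0 : ℝ) < c := by exact_mod_cast hc1.1
      have hs0 : 0 ≤ Real.sqrt 2 * N := by positivity
      have ha2 : (a : ℝ) ≤ Real.sqrt 2 * N := (Nat.le_floor_iff hs0).mp ha1.2
      have hb2 : (b : ℝ) ≤ Real.sqrt 2 * N := (Nat.le_floor_iff hs0).mp hb1.2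
      have hc2 : (c : ℝ) ≤ Real.sqrt 2 * N := (Nat.le_floor_iff hs0).mp hc1.2
      have hs1 : N ≤ Real.sqrt 2 * N := by
        have : 1 ≤ Real.sqrt 2 := Real.one_le_sqrt.mpr (by norm_num)
        nlinarith
      have hmax : max N (max (a : ℝ) (max (b : ℝ) c)) ≤ Real.sqrt 2 * N :=
        max_le hs1 (max_le ha2 (max_le hb2 hc2))
      have hmpos : 0 < max N (max (a : ℝ) (max (b : ℝ) c)) := lt_max_of_lt_left hN0
      have hsq : 2 * (2 * Real.pi * N ^ 2) = 2 * Real.pi * (Real.sqrt 2 * N) ^ 2 := by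
        rw [mul_pow, Real.sq_sqrt (by norm_num)]; ring
      have hle : 2 * Real.pi * (max N (max (a : ℝ) (max (b : ℝ) c))) ^ 2 ≤
          2 * (2 * Real.pi * N ^ 2) := by
        rw [hsq]
        refine mul_le_mul_of_nonneg_left ?_ Real.two_pi_pos.le
        exact pow_le_pow_left₀ hmpos.le hmax 2
      have hsp := h2 ((a : ℝ) * b / c) (2 * Real.pi * (max N (max (a : ℝ) (max (b : ℝ) c))) ^ 2)
        (2 * (2 * Real.pi * N ^ 2)) (by positivity) (by positivity) hle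
      have r1 : Real.sqrt (2 * Real.pi * (max N (max (a : ℝ) (max (b : ℝ) c))) ^ 2 /
          (2 * Real.pi)) = max N (max (a : ℝ) (max (b : ℝ) c)) := by
        rw [mul_div_cancel_left₀ _ Real.two_pi_pos.ne', Real.sqrt_sq hmpos.le]
      have r2 : Real.sqrt (2 * (2 * Real.pi * N ^ 2) / (2 * Real.pi)) = Real.sqrt 2 * N := by
        rw [hsq, mul_div_cancel_left₀ _ Real.two_pi_pos.ne', Real.sqrt_sq hs0]
      rw [r1, r2] at hsp
      have hn : ‖((1 / Real.sqrt ((a : ℝ) * b * c) : ℝ) : ℂ)‖ =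
          1 / Real.sqrt ((a : ℝ) * b * c) := by
        rw [Complex.norm_real, Real.norm_eq_abs, abs_of_nonneg (by positivity)]
      rw [hn]
      calc 1 / Real.sqrt ((a : ℝ) * b * c) * _ ≤ 1 / Real.sqrt ((a : ℝ) * b * c) * _ :=
            mul_le_mul_of_nonneg_left hsp (by positivity)
        _ = _ := by ring
    refine (Finset.sum_le_sum hterm).trans ?_
    simp only [← Finset.mul_sum]
    have := mul_le_mul_of_nonneg_left (h3 N hN1) hC2.le
    linarith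
  -- conclusion
  have hre1 : |(∫ t in (2 * Real.pi * N ^ 2)..(2 * (2 * Real.pi * N ^ 2)), P t ^ 3).re| ≤
      C4 * N ^ (19 / 10 : ℝ) := by
    refine (Complex.abs_re_le_norm _).trans (hp3.trans ?_)
    refine mul_le_mul_of_nonneg_left ?_ hC4.le
    exact Real.rpow_le_rpow_of_exponent_le hN1 (by norm_num)
  have hre2 : |(∫ t in (2 * Real.pi * N ^ 2)..(2 * (2 * Real.pi * N ^ 2)),
      P t ^ 2 * (starRingEnd ℂ) (P t)).re -
      2 * Real.sqrt 2 * Real.pi * (ee (1 / 16) * (starRingEnd ℂ) (W N)).re| ≤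
      C2 * C3 * N ^ (19 / 10 : ℝ) := by
    have e : (∫ t in (2 * Real.pi * N ^ 2)..(2 * (2 * Real.pi * N ^ 2)),
      P t ^ 2 * (starRingEnd ℂ) (P t)).re -
      2 * Real.sqrt 2 * Real.pi * (ee (1 / 16) * (starRingEnd ℂ) (W N)).re =
      ((∫ t in (2 * Real.pi * N ^ 2)..(2 * (2 * Real.pi * N ^ 2)),
      P t ^ 2 * (starRingEnd ℂ) (P t)) -
      ((2 * Real.sqrt 2 * Real.pi : ℝ) : ℂ) * (ee (1 / 16) * (starRingEnd ℂ) (W N))).re := by
      rw [Complex.sub_re, Complex.re_ofReal_mul]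
    rw [e]
    refine (Complex.abs_re_le_norm _).trans (hdiff.trans ?_)
    refine mul_le_mul_of_nonneg_left ?_ (by positivity)
    exact Real.rpow_le_rpow_of_exponent_le hN1 (by norm_num)
  rw [abs_le] at hp1 hre1 hre2 ⊢
  constructor <;> linarith [hp1.1, hp1.2, hre1.1, hre1.2, hre2.1, hre2.2]

end Pool.Agent.H12.Cubic
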